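import Pool.Agent.PV3.Stmts

/-!
Squad PV3, module DDD: the main inequality.
-/

set_option autoImplicit false

open MeasureTheory Metric Set Filter Topology Pointwise

namespace PV3.H33

open PV PV3

variable {n : ℕ}

/-! ### The analytic lemma -/

theorem analysis {Φ : ℝ → ℝ} {r A : ℝ} (hr : 0 ≤ r) (hc : ContinuousOn Φ (Icc 0 r))
    (h0 : 0 < Φ 0) (h1 : Φ r < 0)
    (hloc : ∀ l, 0 < l → l < r → 0 ≤ Φ l → ∃ s, Φ l - s * l ≤ Φ 0 ∧
      ∀ e, 0 < e → ∀ᶠ t in 𝓝[>] (0 : ℝ), Φ l + (s - e) * t ≤ Φ (l + t))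
    (hini : ∀ m, m < -A → ∀ᶠ t in 𝓝[>] (0 : ℝ), Φ 0 + m * t < Φ t) : Φ 0 < r * A := by
  have hcl : IsClosed (Icc 0 r ∩ Φ ⁻¹' Iic 0) :=
    hc.preimage_isClosed_of_isClosed isClosed_Icc isClosed_Iic
  have hcp : IsCompact (Icc 0 r ∩ Φ ⁻¹' Iic 0) :=
    isCompact_Icc.of_isClosed_subset hcl inter_subset_left
  have hne : (Icc 0 r ∩ Φ ⁻¹' Iic 0).Nonempty := ⟨r, ⟨hr, le_rfl⟩, h1.le⟩
  have hmem := hcp.sInf_mem hne
  have hlow : ∀ x, 0 ≤ x → x < sInf (Icc 0 r ∩ Φ ⁻¹' Iic 0) → 0 < Φ x := by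
    intro x hx hxl
    by_contra hcon
    have : x ∈ Icc 0 r ∩ Φ ⁻¹' Iic 0 := ⟨⟨hx, (hxl.trans_le hmem.1.2).le⟩, not_lt.1 hcon⟩
    exact absurd (csInf_le hcp.bddBelow this) (not_le.2 hxl)
  generalize sInf (Icc 0 r ∩ Φ ⁻¹' Iic 0) = l' at hmem hlow
  obtain ⟨⟨hl0, hlr⟩, hΦl⟩ := hmem
  have hΦl : Φ l' ≤ 0 := hΦl
  have hlpos : 0 < l' := by
    rcases eq_or_lt_of_le hl0 with h | h
    · rw [← h] at hΦl; exact absurd h0 (not_lt.2 hΦl)
    · exact h
  have claim : ∀ m, m < -A → Φ 0 + m * l' ≤ Φ l' := by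
    intro m hm
    by_contra hcon
    rw [not_le] at hcon
    have hψ : ContinuousOn (fun l => Φ l - m * l) (Icc 0 l') :=
      (hc.mono (Icc_subset_Icc_right hlr)).sub (by fun_prop)
    obtain ⟨l, hl, hmax⟩ := isCompact_Icc.exists_isMaxOn (nonempty_Icc.2 hl0) hψ
    rw [isMaxOn_iff] at hmax
    obtain ⟨t, ht1, ht2⟩ := ((hini m hm).and (Ioc_mem_nhdsGT hlpos)).exists
    have h2 := hmax t ⟨ht2.1.le, ht2.2⟩
    have h3 : Φ 0 < Φ l - m * l := by linarith
    have hl1 : 0 < l := by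
      rcases eq_or_lt_of_le hl.1 with h | h
      · rw [← h] at h3; simp at h3
      · exact h
    have hl2 : l < l' := by
      rcases eq_or_lt_of_le hl.2 with h | h
      · rw [h] at h3; linarith
      · exact h
    obtain ⟨s, hs1, hs2⟩ := hloc l hl1 (hl2.trans_le hlr) (hlow l hl1.le hl2).le
    have h4 : 0 < (s - m) * l := by
      have : (s - m) * l = s * l - m * l := by ring
      linarith
    have h5 : 0 < s - m := by
      by_contra hcon2
      exact absurd h4 (not_lt.2 (mul_nonpos_of_nonpos_of_nonneg (not_lt.1 hcon2) hl1.le))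
    obtain ⟨t', ht1', ht2'⟩ :=
      ((hs2 ((s - m) / 2) (half_pos h5)).and (Ioc_mem_nhdsGT (sub_pos.2 hl2))).exists
    have h6 := hmax (l + t') ⟨by linarith [ht2'.1], by linarith [ht2'.2]⟩
    have h7 : 0 < (s - m) / 2 * t' := mul_pos (half_pos h5) ht2'.1
    have h8 : (s - (s - m) / 2) * t' - m * t' = (s - m) / 2 * t' := by ring
    linarith
  have hlim : Φ 0 - A * l' ≤ Φ l' := by
    by_contra hcon
    rw [not_le] at hcon
    have h2 := claim (-A - (Φ 0 - A * l' - Φ l') / 2 / l') (by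
      have : 0 < (Φ 0 - A * l' - Φ l') / 2 / l' := div_pos (half_pos (sub_pos.2 hcon)) hlpos
      linarith)
    have h3 : (-A - (Φ 0 - A * l' - Φ l') / 2 / l') * l' =
        -A * l' - (Φ 0 - A * l' - Φ l') / 2 := by
      rw [sub_mul, div_mul_cancel₀ _ hlpos.ne']
    rw [h3] at h2
    linarith
  rcases eq_or_lt_of_le hlr with h | h
  · rw [h] at hlim
    linarith
  · have hA : 0 < A * l' := by linarith
    have hA' : 0 < A := by
      by_contra hcon2
      exact absurd hA (not_lt.2 (mul_nonpos_of_nonpos_of_nonneg (not_lt.1 hcon2) hlpos.le))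
    have := mul_lt_mul_of_pos_left h hA'
    linarith

theorem quad {a b c : ℝ} (h : ∀ t, 0 ≤ t → 0 ≤ a * t ^ 2 + b * t + c) : 0 ≤ a := by
  by_contra hcon
  rw [not_le] at hcon
  have hna : 0 < -a := neg_pos.2 hcon
  have h1 : (1 : ℝ) ≤ max 1 ((|b| + |c| + 1) / (-a)) := le_max_left _ _
  have h2 : (|b| + |c| + 1) / (-a) ≤ max 1 ((|b| + |c| + 1) / (-a)) := le_max_right _ _
  generalize max 1 ((|b| + |c| + 1) / (-a)) = t at h1 h2
  have h3 : |b| + |c| + 1 ≤ t * (-a) := (div_le_iff₀ hna).1 h2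
  have h4 := h t (zero_le_one.trans h1)
  have h5 : b * t ≤ |b| * t := mul_le_mul_of_nonneg_right (le_abs_self b) (by linarith)
  have h6 : c ≤ |c| * t := (le_abs_self c).trans (le_mul_of_one_le_right (abs_nonneg c) h1)
  have h7 : a * t ^ 2 + |b| * t + |c| * t ≤ -t := by
    have : (|b| + |c| + 1) * t ≤ t * (-a) * t := mul_le_mul_of_nonneg_right h3 (by linarith)
    nlinarith
  linarith

/-! ### Polyhedra -/

theorem Pl_closed (U : Finset (E n)) (c : E n → ℝ) : IsClosed (Pl U c) := by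
  have h : Pl U c = ⋂ w ∈ U, {x | inner ℝ x w ≤ c w} := by
    ext x
    simp only [Pl, mem_ofPred_eq, mem_iInter]
  rw [h]
  exact isClosed_biInter fun w _ => isClosed_le (by fun_prop) continuous_const

theorem Pl_convex (U : Finset (E n)) (c : E n → ℝ) : Convex ℝ (Pl U c) := by
  intro x hx y hy a b ha hb hab w hw
  rw [inner_add_left, inner_smul_left, inner_smul_left, conj_trivial, conj_trivial]
  calc a * inner ℝ x w + b * inner ℝ y w ≤ a * c w + b * c w := by
        have := hx w hw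
        have := hy w hw
        gcongr
    _ = c w := by rw [← add_mul, hab, one_mul]

theorem Pl_compact {U : Finset (E n)} (hB : Bd U) (c : E n → ℝ) : IsCompact (Pl U c) :=
  Metric.isCompact_of_isClosed_isBounded (Pl_closed U c) (hB c)

theorem vl_mono {S S' : Set (E n)} (hS' : IsCompact S') (h : S ⊆ S') : vl S ≤ vl S' :=
  ENNReal.toReal_mono hS'.measure_lt_top.ne (measure_mono h)

theorem vl_nonneg (S : Set (E n)) : 0 ≤ vl S := ENNReal.toReal_nonneg

theorem vl_pos {S : Set (E n)} (hS : IsCompact S) (hF : Full S) : 0 < vl S := by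
  apply ENNReal.toReal_pos _ hS.measure_lt_top.ne
  have h1 : 0 < volume (interior S) := isOpen_interior.measure_pos volume hF
  exact (h1.trans_le (measure_mono interior_subset)).ne'

theorem full_of_vl_pos {S : Set (E n)} (hS : Convex ℝ S) (h : 0 < vl S) : Full S := by
  by_contra hcon
  rw [Full, Set.not_nonempty_iff_eq_empty] at hcon
  have h1 : volume S ≤ volume (frontier S) := by
    apply measure_mono
    have := subset_closure (s := S)
    rwa [closure_eq_interior_union_frontier, hcon, empty_union] at this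
  rw [hS.addHaar_frontier volume] at h1
  have h2 : volume S = 0 := le_antisymm h1 zero_le
  rw [vl, h2, ENNReal.toReal_zero] at h
  exact lt_irrefl _ h

/-- the inner polyhedra -/
def LL (U : Finset (E n)) (c d : E n → ℝ) (l : ℝ) : Set (E n) := Pl U fun w => c w - l * d w

theorem LL_zero (U : Finset (E n)) (c d : E n → ℝ) : LL U c d 0 = Pl U c := by
  rw [LL]
  congr 1
  funext w
  ring

theorem LL_anti {U : Finset (E n)} {c d : E n → ℝ} (hd : ∀ w ∈ U, 0 < d w) {l l' : ℝ}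
    (h : l ≤ l') : LL U c d l' ⊆ LL U c d l := by
  intro x hx w hw
  have h1 := hx w hw
  have h2 := mul_le_mul_of_nonneg_right h (hd w hw).le
  show inner ℝ x w ≤ c w - l * d w
  linarith

theorem F_anti {U : Finset (E n)} (hB : Bd U) {c d : E n → ℝ} (hd : ∀ w ∈ U, 0 < d w)
    {l l' : ℝ} (h : l ≤ l') : vl (LL U c d l') ≤ vl (LL U c d l) :=
  vl_mono (Pl_compact hB _) (LL_anti hd h)

theorem F_inn (hINN : INNStmt) {U : Finset (E n)} (hU : Un U) (hB : Bd U) {c d : E n → ℝ}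
    (hd : ∀ w ∈ U, 0 < d w) (l : ℝ) {e : ℝ} (he : 0 < e) : ∀ᶠ t : ℝ in 𝓝[>] 0,
    vl (LL U c d l) - vl (LL U c d (l + t)) ≤
      t * (∑ w ∈ U, fa U (fun w => c w - l * d w) w * d w + e) := by
  have h := hINN n U (fun w => c w - l * d w) d hU hB (fun w hw => (hd w hw).le) e he
  filter_upwards [h] with t ht
  have e1 : LL U c d (l + t) = Pl U fun w => c w - l * d w - t * d w := by
    rw [LL]
    congr 1
    funext w
    ring
  rw [e1]
  exact ht

theorem F_right (hINN : INNStmt) {U : Finset (E n)} (hU : Un U) (hB : Bd U) {c d : E n → ℝ}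
    (hd : ∀ w ∈ U, 0 < d w) (l : ℝ) :
    ContinuousWithinAt (fun l => vl (LL U c d l)) (Ioi l) l := by
  have h := F_inn hINN hU hB hd (c := c) l one_pos
  have htend : Tendsto (fun μ : ℝ => μ - l) (𝓝[>] l) (𝓝[>] 0) := by
    refine tendsto_nhdsWithin_iff.2 ⟨?_, eventually_nhdsWithin_of_forall fun μ hμ =>
      mem_Ioi.2 (sub_pos.2 (mem_Ioi.1 hμ))⟩
    have h2 : Tendsto (fun μ : ℝ => μ - l) (𝓝 l) (𝓝 (l - l)) :=
      (continuous_id.sub continuous_const).tendsto l
    rw [sub_self] at h2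
    exact h2.mono_left nhdsWithin_le_nhds
  have h2 := htend.eventually h
  have h3 : Tendsto (fun μ : ℝ => vl (LL U c d l) - (μ - l) *
      (∑ w ∈ U, fa U (fun w => c w - l * d w) w * d w + 1)) (𝓝[>] l)
      (𝓝 (vl (LL U c d l))) := by
    have h4 : Tendsto (fun μ : ℝ => vl (LL U c d l) - (μ - l) *
      (∑ w ∈ U, fa U (fun w => c w - l * d w) w * d w + 1)) (𝓝 l)
      (𝓝 (vl (LL U c d l) - (l - l) *
      (∑ w ∈ U, fa U (fun w => c w - l * d w) w * d w + 1))) :=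
      Continuous.tendsto (by fun_prop) l
    rw [sub_self, zero_mul, sub_zero] at h4
    exact h4.mono_left nhdsWithin_le_nhds
  refine tendsto_of_tendsto_of_tendsto_of_le_of_le' h3 tendsto_const_nhds ?_ ?_
  · filter_upwards [h2] with μ hμ
    rw [add_sub_cancel] at hμ
    linarith
  · filter_upwards [self_mem_nhdsWithin] with μ hμ
    exact F_anti hB hd (le_of_lt hμ)

theorem F_left {U : Finset (E n)} (hB : Bd U) {c d : E n → ℝ}
    (hd : ∀ w ∈ U, 0 < d w) (l : ℝ) :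
    ContinuousWithinAt (fun l => vl (LL U c d l)) (Iio l) l := by
  have hanti : Antitone fun j : ℕ => LL U c d (l - 1 / ((j : ℝ) + 1)) := by
    intro i j hij
    apply LL_anti hd
    have := one_div_le_one_div_of_le (by positivity : (0 : ℝ) < (i : ℝ) + 1)
      (by exact_mod_cast Nat.succ_le_succ hij : (i : ℝ) + 1 ≤ (j : ℝ) + 1)
    linarith
  have hint : ⋂ j : ℕ, LL U c d (l - 1 / ((j : ℝ) + 1)) = LL U c d l := by
    apply subset_antisymm
    · intro x hx w hw
      rw [mem_iInter] at hx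
      have h1 : Tendsto (fun j : ℕ => c w - (l - 1 / ((j : ℝ) + 1)) * d w) atTop
          (𝓝 (c w - (l - 0) * d w)) :=
        tendsto_const_nhds.sub
          ((tendsto_const_nhds.sub tendsto_one_div_add_atTop_nhds_zero_nat).mul_const _)
      rw [sub_zero] at h1
      exact ge_of_tendsto' h1 fun j => hx j w hw
    · refine subset_iInter fun j => LL_anti hd ?_
      have : (0 : ℝ) < 1 / ((j : ℝ) + 1) := by positivity
      linarith
  have hmeas : ∀ j : ℕ, NullMeasurableSet (LL U c d (l - 1 / ((j : ℝ) + 1)))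
      (volume : Measure (E n)) := fun j => (Pl_closed U _).measurableSet.nullMeasurableSet
  have hm := tendsto_measure_iInter_atTop hmeas hanti
    ⟨0, (Pl_compact hB _).measure_lt_top.ne⟩
  rw [hint] at hm
  have hm2 : Tendsto (fun j : ℕ => vl (LL U c d (l - 1 / ((j : ℝ) + 1)))) atTop
      (𝓝 (vl (LL U c d l))) :=
    (ENNReal.tendsto_toReal (Pl_compact hB _).measure_lt_top.ne).comp hm
  refine tendsto_order.2 ⟨fun a ha => ?_, fun a ha => ?_⟩
  · filter_upwards [self_mem_nhdsWithin] with μ hμ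
    exact ha.trans_le (F_anti hB hd (le_of_lt hμ))
  · obtain ⟨j, hj⟩ := (hm2.eventually (gt_mem_nhds ha)).exists
    have hj' : (0 : ℝ) < 1 / ((j : ℝ) + 1) := by positivity
    filter_upwards [Ioo_mem_nhdsLT (sub_lt_self l hj')] with μ hμ
    exact (F_anti hB hd hμ.1.le).trans_lt hj

theorem F_cont (hINN : INNStmt) {U : Finset (E n)} (hU : Un U) (hB : Bd U) {c d : E n → ℝ}
    (hd : ∀ w ∈ U, 0 < d w) : Continuous fun l => vl (LL U c d l) :=
  continuous_iff_continuousAt.2 fun l =>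
    continuousAt_iff_continuous_left'_right'.2 ⟨F_left hB hd l, F_right hINN hU hB hd l⟩

/-- the function of the proof -/
noncomputable def Ph (U : Finset (E 3)) (c d : E 3 → ℝ) (l : ℝ) : ℝ :=
  vl (LL U c d l) - (1 - l) ^ 3 * vl (Pl U d)

theorem Ph_right (hINN : INNStmt) {U : Finset (E 3)} (hU : Un U) (hB : Bd U) {c d : E 3 → ℝ}
    (hd : ∀ w ∈ U, 0 < d w) {l : ℝ} (hl0 : 0 ≤ l) {e : ℝ} (he : 0 < e) :
    ∀ᶠ t : ℝ in 𝓝[>] 0, Ph U c d l - (∑ w ∈ U, fa U (fun w => c w - l * d w) w * d w -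
      3 * (1 - l) ^ 2 * vl (Pl U d) + e) * t ≤ Ph U c d (l + t) := by
  have hy : 0 ≤ vl (Pl U d) := vl_nonneg _
  have hpos : 0 < e / 2 / (3 * vl (Pl U d) + 1) := by positivity
  filter_upwards [F_inn hINN hU hB hd (c := c) l (half_pos he), Ioc_mem_nhdsGT hpos]
    with t ht1 ht2
  have h1 : t * (3 * vl (Pl U d) + 1) ≤ e / 2 := (le_div_iff₀ (by positivity)).1 ht2.2
  have h2 : 0 ≤ t := ht2.1.le
  unfold Ph
  generalize vl (Pl U d) = y at *
  generalize (∑ w ∈ U, fa U (fun w => c w - l * d w) w * d w) = T at *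
  generalize vl (LL U c d (l + t)) = F1 at *
  generalize vl (LL U c d l) = F0 at *
  have h3 : 3 * (1 - l) * y * t ≤ e / 2 := by
    have : (1 - l) * (y * t) ≤ 1 * (y * t) :=
      mul_le_mul_of_nonneg_right (by linarith) (mul_nonneg hy h2)
    nlinarith
  have h4 : 3 * (1 - l) * y * t * t ≤ e / 2 * t := mul_le_mul_of_nonneg_right h3 h2
  have h5 : 0 ≤ y * t ^ 3 := by positivity
  have h6 : (1 - (l + t)) ^ 3 * y = (1 - l) ^ 3 * y - 3 * (1 - l) ^ 2 * y * t +
      3 * (1 - l) * y * t * t - y * t ^ 3 := by ring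
  rw [h6]
  have h7 : t * (T + e / 2) = T * t + e / 2 * t := by ring
  have h8 : (T - 3 * (1 - l) ^ 2 * y + e) * t =
      T * t - 3 * (1 - l) ^ 2 * y * t + e / 2 * t + e / 2 * t := by ring
  rw [h8]
  linarith

theorem vl_smul (S : Set (E 3)) {t : ℝ} (ht : 0 ≤ t) : vl (t • S) = t ^ 3 * vl S := by
  rw [vl, Measure.addHaar_smul, finrank_euclideanSpace_fin, abs_of_nonneg (pow_nonneg ht 3),
    ENNReal.toReal_mul, ENNReal.toReal_ofReal (pow_nonneg ht 3), vl]

theorem Ph_loc (hINN : INNStmt) (hOUT : OUTStmt) (hVPO : VPOStmt) (hPOL : POLStmt)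
    (hBM : BMStmt) {U : Finset (E 3)} (hU : Un U) (hB : Bd U) {c d : E 3 → ℝ}
    (hK : Full (Pl U d)) (hh : ∀ w ∈ U, hs (Pl U d) w = d w)
    (hd : ∀ w ∈ U, 0 < d w) {l : ℝ} (hl0 : 0 < l) (hl1 : l < 1) (hl : 0 ≤ Ph U c d l) :
    ∃ s, Ph U c d l - s * l ≤ Ph U c d 0 ∧
      ∀ e, 0 < e → ∀ᶠ t in 𝓝[>] (0 : ℝ), Ph U c d l + (s - e) * t ≤ Ph U c d (l + t) := by
  have hy : 0 < vl (Pl U d) := vl_pos (Pl_compact hB d) hK
  have hl' : (1 - l) ^ 3 * vl (Pl U d) ≤ vl (LL U c d l) := by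
    unfold Ph at hl
    linarith
  have hMpos : 0 < vl (LL U c d l) :=
    (mul_pos (pow_pos (sub_pos.2 hl1) 3) hy).trans_le hl'
  have hMF : Full (LL U c d l) := full_of_vl_pos (Pl_convex U _) hMpos
  obtain ⟨S, hS⟩ := hVPO 3 U (fun w => c w - l * d w) (hB _)
  obtain ⟨S', hS'⟩ := hVPO 3 U d (hB _)
  obtain ⟨g₁, g₂, hG⟩ := hPOL S S' (by rw [← hS]; exact hMF) (by rw [← hS']; exact hK)
  rw [← hS, ← hS'] at hG
  change ∀ t : ℝ, 0 ≤ t → vl (LL U c d l + t • Pl U d) = vl (LL U c d l) + g₁ * t +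
    g₂ * t ^ 2 + vl (Pl U d) * t ^ 3 at hG
  have h0K : (0 : E 3) ∈ Pl U d := fun w hw => by
    rw [inner_zero_left]
    exact (hd w hw).le
  obtain ⟨k, hk0, hk⟩ : ∃ k : ℝ, 0 ≤ k ∧ k ^ 3 = vl (Pl U d) :=
    ⟨vl (Pl U d) ^ ((3 : ℕ) : ℝ)⁻¹, Real.rpow_nonneg hy.le _,
      Real.rpow_inv_natCast_pow hy.le (by norm_num)⟩
  have hMne : (LL U c d l).Nonempty := hMF.mono interior_subset
  have hg2 : 0 ≤ g₂ - 3 * (1 - l) * vl (Pl U d) := by
    apply quad (b := g₁ - 3 * (1 - l) ^ 2 * vl (Pl U d))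
      (c := vl (LL U c d l) - (1 - l) ^ 3 * vl (Pl U d))
    intro t ht
    have h1 := hBM 3 (by norm_num) (LL U c d l) (t • Pl U d) (Pl_compact hB _)
      ((Pl_compact hB d).smul t) hMne ⟨_, Set.smul_mem_smul_set h0K⟩ ((1 - l) * k) (t * k)
      (mul_nonneg (sub_pos.2 hl1).le hk0) (mul_nonneg ht hk0)
      (by rw [mul_pow, hk]; exact hl')
      (by rw [mul_pow, hk, vl_smul _ ht])
    rw [hG t ht] at h1
    have h2 : ((1 - l) * k + t * k) ^ 3 = (1 - l + t) ^ 3 * vl (Pl U d) := by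
      rw [← hk]; ring
    rw [h2] at h1
    nlinarith
  have hTle : ∑ w ∈ U, fa U (fun w => c w - l * d w) w * d w ≤ g₁ := by
    apply le_of_forall_sub_le
    intro e he
    have h1 := hOUT 3 U (fun w => c w - l * d w) (Pl U d) hU hB hMF (Pl_compact hB d)
      (Pl_convex U d) h0K e he
    have h2 : ∑ w ∈ U, fa U (fun w => c w - l * d w) w * hs (Pl U d) w =
        ∑ w ∈ U, fa U (fun w => c w - l * d w) w * d w :=
      Finset.sum_congr rfl fun w hw => by rw [hh w hw]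
    rw [h2] at h1
    have h3 : Tendsto (fun t : ℝ => g₁ + g₂ * t + vl (Pl U d) * t ^ 2) (𝓝[>] 0) (𝓝 g₁) := by
      have h4 : Tendsto (fun t : ℝ => g₁ + g₂ * t + vl (Pl U d) * t ^ 2) (𝓝 0)
          (𝓝 (g₁ + g₂ * 0 + vl (Pl U d) * 0 ^ 2)) := Continuous.tendsto (by fun_prop) 0
      have h5 : g₁ + g₂ * 0 + vl (Pl U d) * 0 ^ 2 = g₁ := by ring
      rw [h5] at h4
      exact h4.mono_left nhdsWithin_le_nhds
    refine ge_of_tendsto h3 ?_
    filter_upwards [h1, self_mem_nhdsWithin] with t ht1 ht2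
    have ht2 : 0 < t := ht2
    have h6 := hG t ht2.le
    have ht1 : vl (LL U c d l) + t * (∑ w ∈ U, fa U (fun w => c w - l * d w) w * d w - e) ≤
      vl (LL U c d l + t • Pl U d) := ht1
    rw [h6] at ht1
    have h7 : t * (∑ w ∈ U, fa U (fun w => c w - l * d w) w * d w - e) ≤
        t * (g₁ + g₂ * t + vl (Pl U d) * t ^ 2) := by
      have h8 : t * (g₁ + g₂ * t + vl (Pl U d) * t ^ 2) =
        g₁ * t + g₂ * t ^ 2 + vl (Pl U d) * t ^ 3 := by ring
      rw [h8]
      linarith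
    exact le_of_mul_le_mul_left h7 ht2
  refine ⟨-(g₁ - 3 * (1 - l) ^ 2 * vl (Pl U d)), ?_, ?_⟩
  · have h1 : LL U c d l + l • Pl U d ⊆ LL U c d 0 := by
      rintro x hx
      obtain ⟨a, ha, b', hb', rfl⟩ := Set.mem_add.1 hx
      obtain ⟨b, hb, rfl⟩ := hb'
      intro w hw
      have h2 := ha w hw
      have h3 := mul_le_mul_of_nonneg_left (hb w hw) hl0.le
      show inner ℝ (a + l • b) w ≤ c w - 0 * d w
      rw [inner_add_left, inner_smul_left, conj_trivial]
      linarith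
    have h2 : vl (LL U c d l + l • Pl U d) ≤ vl (LL U c d 0) :=
      vl_mono (Pl_compact hB _) h1
    rw [hG l hl0.le] at h2
    have h3 := mul_nonneg hg2 (sq_nonneg l)
    unfold Ph
    generalize vl (LL U c d 0) = F0 at *
    generalize vl (LL U c d l) = F1 at *
    generalize vl (Pl U d) = y at *
    have h4 : (1 - l) ^ 3 * y + 3 * (1 - l) ^ 2 * y * l + 3 * (1 - l) * y * l ^ 2 +
      y * l ^ 3 = y := by ring
    have h5 : (g₂ - 3 * (1 - l) * y) * l ^ 2 = g₂ * l ^ 2 - 3 * (1 - l) * y * l ^ 2 := by ring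
    have h6 : -(g₁ - 3 * (1 - l) ^ 2 * y) * l = -(g₁ * l) + 3 * (1 - l) ^ 2 * y * l := by ring
    have h7 : (1 - (0 : ℝ)) ^ 3 * y = y := by ring
    rw [h6, h7]
    rw [h5] at h3
    linarith
  · intro e he
    filter_upwards [Ph_right hINN hU hB hd (c := c) hl0.le he, self_mem_nhdsWithin]
      with t ht1 ht2
    have ht2 : 0 < t := ht2
    have h1 := mul_le_mul_of_nonneg_right hTle ht2.le
    linarith

theorem ddd (hINN : INNStmt) (hOUT : OUTStmt) (hVPO : VPOStmt) (hPOL : POLStmt)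
    (hBM : BMStmt) : DDDStmt := by
  intro U c d r hU hB hL hK hh hd hr0 hr1 hvr hlt
  have hy : 0 < vl (Pl U d) := vl_pos (Pl_compact hB d) hK
  have h0 : Ph U c d 0 = vl (Pl U c) - vl (Pl U d) := by
    rw [Ph, LL_zero]
    ring
  have hr : Ph U c d r = - ((1 - r) ^ 3 * vl (Pl U d)) := by
    rw [Ph, LL, hvr]
    ring
  rw [← h0]
  apply analysis hr0
  · have h1 := F_cont hINN hU hB hd (c := c)
    unfold Ph
    fun_prop
  · rw [h0]
    linarith
  · rw [hr]
    exact neg_neg_of_pos (mul_pos (pow_pos (sub_pos.2 hr1) 3) hy)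
  · intro l hl0 hlr hl
    exact Ph_loc hINN hOUT hVPO hPOL hBM hU hB hK hh hd hl0 (hlr.trans hr1) hl
  · intro m hm
    have hδ : 0 < -(∑ w ∈ U, fa U c w * d w - 3 * vl (Pl U d)) - m := by linarith
    filter_upwards [Ph_right hINN hU hB hd (c := c) le_rfl (half_pos hδ),
      self_mem_nhdsWithin] with t ht1 ht2
    have ht2 : 0 < t := ht2
    have e1 : (fun w => c w - 0 * d w) = c := by
      funext w
      ring
    rw [e1, zero_add] at ht1
    have h3 := mul_pos (half_pos hδ) ht2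
    nlinarith

end PV3.H33
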