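import Pool.Agent.PV3.Stmts

/-!
Squad PV3, module POL: the volume of `M + t K` is a cubic polynomial (Gromov's trick).
-/

set_option autoImplicit false

open MeasureTheory Metric Set Filter Topology Pointwise

namespace PV3.H33

open PV PV3

variable {n : ℕ}

/-- the partition function -/
noncomputable def Z (S : Finset (E n)) (v : E n) : ℝ := ∑ p ∈ S, Real.exp (inner ℝ p v)

/-- the numerator of the mean -/
noncomputable def N (S : Finset (E n)) (v : E n) : E n := ∑ p ∈ S, Real.exp (inner ℝ p v) • p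

/-- the mean -/
noncomputable def m (S : Finset (E n)) (v : E n) : E n := (Z S v)⁻¹ • N S v

/-- the covariance -/
noncomputable def H (S : Finset (E n)) (v : E n) : E n →L[ℝ] E n :=
  (Z S v)⁻¹ • ∑ p ∈ S, Real.exp (inner ℝ p v) • (innerSL ℝ p).smulRight (p - m S v)

theorem Z_pos {S : Finset (E n)} (hS : S.Nonempty) (v : E n) : 0 < Z S v :=
  Finset.sum_pos (fun _ _ => Real.exp_pos _) hS

theorem hexp (p v : E n) :
    HasFDerivAt (fun v : E n => Real.exp (inner ℝ p v))
      (Real.exp (inner ℝ p v) • innerSL ℝ p) v := by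
  have h : HasFDerivAt (fun v : E n => inner ℝ p v) (innerSL ℝ p) v :=
    (innerSL ℝ p).hasFDerivAt
  exact h.exp

theorem hZ (S : Finset (E n)) (v : E n) :
    HasFDerivAt (Z S) (∑ p ∈ S, Real.exp (inner ℝ p v) • innerSL ℝ p) v :=
  HasFDerivAt.fun_sum fun p _ => hexp p v

theorem hN (S : Finset (E n)) (v : E n) :
    HasFDerivAt (N S) (∑ p ∈ S, (Real.exp (inner ℝ p v) • innerSL ℝ p).smulRight p) v :=
  HasFDerivAt.fun_sum fun p _ => (hexp p v).smul_const p

theorem H_apply (S : Finset (E n)) (v u : E n) :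
    H S v u = (Z S v)⁻¹ • ∑ p ∈ S, (Real.exp (inner ℝ p v) * inner ℝ p u) • (p - m S v) := by
  simp only [H, FunLike.coe_smul, FunLike.coe_sum, Pi.smul_apply,
    Finset.sum_apply, ContinuousLinearMap.smulRight_apply, innerSL_apply_apply, smul_smul]

theorem hm {S : Finset (E n)} (hS : S.Nonempty) (v : E n) : HasFDerivAt (m S) (H S v) v := by
  have hz := (Z_pos hS v).ne'
  have h1 : HasFDerivAt (fun v => (Z S v)⁻¹)
      ((-(Z S v ^ 2)⁻¹) • ∑ p ∈ S, Real.exp (inner ℝ p v) • innerSL ℝ p) v :=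
    (hasDerivAt_inv hz).comp_hasFDerivAt v (hZ S v)
  have h2 := h1.smul (hN S v)
  refine h2.congr_fderiv ?_
  ext1 u
  rw [H_apply]
  have e1 : ∑ p ∈ S, (Real.exp (inner ℝ p v) * inner ℝ p u) • (p - m S v) =
      (∑ p ∈ S, (Real.exp (inner ℝ p v) * inner ℝ p u) • p) -
        (∑ p ∈ S, Real.exp (inner ℝ p v) * inner ℝ p u) • m S v := by
    rw [Finset.sum_smul, ← Finset.sum_sub_distrib]
    exact Finset.sum_congr rfl fun p _ => smul_sub _ _ _
  rw [e1, m]
  simp only [add_apply, FunLike.coe_smul, FunLike.coe_sum, Pi.smul_apply,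
    Finset.sum_apply, ContinuousLinearMap.smulRight_apply, innerSL_apply_apply, smul_sub,
    smul_smul, smul_eq_mul]
  rw [sub_eq_add_neg, ← neg_smul]
  congr 2
  field_simp

theorem hlog {S : Finset (E n)} (hS : S.Nonempty) (v : E n) :
    HasFDerivAt (fun v => Real.log (Z S v)) (innerSL ℝ (m S v)) v := by
  refine ((hZ S v).log (Z_pos hS v).ne').congr_fderiv ?_
  ext1 u
  simp only [FunLike.coe_smul, FunLike.coe_sum, Pi.smul_apply, Finset.sum_apply,
    innerSL_apply_apply, m, N, inner_smul_left, sum_inner, smul_eq_mul, conj_trivial]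

theorem sum_sub_m {S : Finset (E n)} (hS : S.Nonempty) (v : E n) :
    ∑ p ∈ S, Real.exp (inner ℝ p v) • (p - m S v) = 0 := by
  have hz := (Z_pos hS v).ne'
  simp only [smul_sub, Finset.sum_sub_distrib]
  rw [← Finset.sum_smul]
  change N S v - Z S v • ((Z S v)⁻¹ • N S v) = 0
  rw [smul_smul, mul_inv_cancel₀ hz, one_smul, sub_self]

theorem H_inner {S : Finset (E n)} (hS : S.Nonempty) (v u : E n) :
    inner ℝ (H S v u) u =
      (Z S v)⁻¹ * ∑ p ∈ S, Real.exp (inner ℝ p v) * (inner ℝ (p - m S v) u) ^ 2 := by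
  have h0 : ∑ p ∈ S, Real.exp (inner ℝ p v) * inner ℝ (p - m S v) u = 0 := by
    have := congrArg (fun x => inner ℝ x u) (sum_sub_m hS v)
    simpa only [sum_inner, inner_smul_left, inner_zero_left, conj_trivial] using this
  rw [H_apply, inner_smul_left, sum_inner, conj_trivial]
  congr 1
  have h1 : ∑ p ∈ S, Real.exp (inner ℝ p v) * (inner ℝ (p - m S v) u) ^ 2 =
      ∑ p ∈ S, (inner ℝ ((Real.exp (inner ℝ p v) * inner ℝ p u) • (p - m S v)) u -
        inner ℝ (m S v) u * (Real.exp (inner ℝ p v) * inner ℝ (p - m S v) u)) := by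
    apply Finset.sum_congr rfl
    intro p _
    rw [inner_smul_left, conj_trivial, inner_sub_left]
    ring
  rw [h1, Finset.sum_sub_distrib, ← Finset.mul_sum, h0, mul_zero, sub_zero]

theorem H_nonneg {S : Finset (E n)} (hS : S.Nonempty) (v u : E n) :
    0 ≤ inner ℝ (H S v u) u := by
  rw [H_inner hS]
  exact mul_nonneg (inv_nonneg.2 (Z_pos hS v).le)
    (Finset.sum_nonneg fun p _ => mul_nonneg (Real.exp_pos _).le (sq_nonneg _))

theorem H_pos {S : Finset (E n)} (hS : S.Nonempty) (hF : Full (convexHull ℝ (S : Set (E n))))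
    (v u : E n) (hu : u ≠ 0) : 0 < inner ℝ (H S v u) u := by
  refine lt_of_le_of_ne (H_nonneg hS v u) fun h => ?_
  rw [H_inner hS] at h
  have h1 := (mul_eq_zero.1 h.symm).resolve_left (inv_ne_zero (Z_pos hS v).ne')
  rw [Finset.sum_eq_zero_iff_of_nonneg
    fun p _ => mul_nonneg (Real.exp_pos _).le (sq_nonneg _)] at h1
  have h2 : (S : Set (E n)) ⊆ {x | inner ℝ x u = inner ℝ (m S v) u} := by
    intro p hp
    have h3 := (mul_eq_zero.1 (h1 p hp)).resolve_left (Real.exp_pos _).ne'
    have h4 := pow_eq_zero_iff (two_ne_zero) |>.1 h3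
    rw [inner_sub_left] at h4
    exact sub_eq_zero.1 h4
  have h3 : Convex ℝ {x : E n | inner ℝ x u = inner ℝ (m S v) u} := by
    intro x hx y hy a b _ _ hab
    rw [mem_ofPred_eq] at hx hy ⊢
    rw [inner_add_left, inner_smul_left, inner_smul_left, conj_trivial, conj_trivial, hx, hy,
      ← add_mul, hab, one_mul]
  have h4 := convexHull_min h2 h3
  obtain ⟨x, hx⟩ := hF
  obtain ⟨e, he, hb⟩ := Metric.isOpen_iff.1 isOpen_interior x hx
  have h5 : x + (e / 2 / ‖u‖) • u ∈ ball x e := by
    rw [mem_ball, dist_self_add_left, norm_smul, Real.norm_eq_abs,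
      abs_of_pos (div_pos (half_pos he) (norm_pos_iff.2 hu)), div_mul_cancel₀ _
      (norm_pos_iff.2 hu).ne']
    exact half_lt_self he
  have h6 := h4 (interior_subset (hb h5))
  have h7 := h4 (interior_subset hx)
  rw [mem_ofPred_eq] at h6 h7
  rw [inner_add_left, inner_smul_left, conj_trivial, h7, real_inner_self_eq_norm_sq] at h6
  have h8 : 0 < e / 2 / ‖u‖ * ‖u‖ ^ 2 :=
    mul_pos (div_pos (half_pos he) (norm_pos_iff.2 hu)) (pow_pos (norm_pos_iff.2 hu) 2)
  linarith

/-- the map `m_S + t m_S'` -/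
noncomputable def g (S S' : Finset (E n)) (t : ℝ) (v : E n) : E n := m S v + t • m S' v

theorem hg {S S' : Finset (E n)} (hS : S.Nonempty) (hS' : S'.Nonempty) (t : ℝ) (v : E n) :
    HasFDerivAt (g S S' t) (H S v + t • H S' v) v :=
  (hm hS v).add ((hm hS' v).const_smul t)

theorem m_mem {S : Finset (E n)} (hS : S.Nonempty) (v : E n) :
    m S v ∈ convexHull ℝ (S : Set (E n)) := by
  have h : m S v = ∑ p ∈ S, ((Z S v)⁻¹ * Real.exp (inner ℝ p v)) • p := by
    rw [m, N, Finset.smul_sum]
    exact Finset.sum_congr rfl fun p _ => smul_smul _ _ _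
  rw [h]
  refine (convex_convexHull ℝ _).sum_mem
    (fun p _ => mul_nonneg (inv_nonneg.2 (Z_pos hS v).le) (Real.exp_pos _).le) ?_
    (fun p hp => subset_convexHull ℝ _ hp)
  rw [← Finset.mul_sum]
  exact inv_mul_cancel₀ (Z_pos hS v).ne'

theorem g_mem {S S' : Finset (E n)} (hS : S.Nonempty) (hS' : S'.Nonempty) (t : ℝ) (v : E n) :
    g S S' t v ∈ convexHull ℝ (S : Set (E n)) + t • convexHull ℝ (S' : Set (E n)) :=
  Set.add_mem_add (m_mem hS v) (Set.smul_mem_smul_set (m_mem hS' v))

theorem D_pos {S S' : Finset (E n)} (hS : S.Nonempty) (hS' : S'.Nonempty)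
    (hF : Full (convexHull ℝ (S : Set (E n)))) {t : ℝ} (ht : 0 ≤ t) (v u : E n) (hu : u ≠ 0) :
    0 < inner ℝ ((H S v + t • H S' v) u) u := by
  have h1 := H_pos hS hF v u hu
  have h2 := mul_nonneg ht (H_nonneg hS' v u)
  have e : inner ℝ ((H S v + t • H S' v) u) u =
      inner ℝ (H S v u) u + t * inner ℝ (H S' v u) u := by
    rw [add_apply, FunLike.coe_smul, Pi.smul_apply, inner_add_left, inner_smul_left,
      conj_trivial]
  rw [e]
  linarith

theorem g_inj {S S' : Finset (E n)} (hS : S.Nonempty) (hS' : S'.Nonempty)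
    (hF : Full (convexHull ℝ (S : Set (E n)))) {t : ℝ} (ht : 0 ≤ t) :
    Function.Injective (g S S' t) := by
  intro v v' hvv
  by_contra hne
  have hw : v' - v ≠ 0 := sub_ne_zero.2 (Ne.symm hne)
  have hd : ∀ s : ℝ, HasDerivAt (fun s : ℝ => inner ℝ (g S S' t (v + s • (v' - v))) (v' - v))
      (inner ℝ ((H S (v + s • (v' - v)) + t • H S' (v + s • (v' - v))) (v' - v)) (v' - v)) s := by
    intro s
    have h1 : HasDerivAt (fun s : ℝ => v + s • (v' - v)) (v' - v) s := by
      have := ((hasDerivAt_id s).smul_const (v' - v)).const_add v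
      rwa [one_smul] at this
    have h2 := (hg hS hS' t (v + s • (v' - v))).comp_hasDerivAt s h1
    have h3 := h2.inner ℝ (hasDerivAt_const s (v' - v))
    rwa [inner_zero_right, zero_add] at h3
  have hmono := strictMono_of_deriv_pos fun s => by
    rw [(hd s).deriv]
    exact D_pos hS hS' hF ht _ _ hw
  have h := hmono zero_lt_one
  simp only [zero_smul, add_zero, one_smul, add_sub_cancel] at h
  rw [hvv] at h
  exact lt_irrefl _ h

theorem log_ge {S : Finset (E n)} (hS : S.Nonempty) (v : E n) {a : E n}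
    (ha : a ∈ convexHull ℝ (S : Set (E n))) : inner ℝ a v ≤ Real.log (Z S v) := by
  have h : (S : Set (E n)) ⊆ {x | inner ℝ x v ≤ Real.log (Z S v)} := by
    intro p hp
    rw [mem_ofPred_eq, Real.le_log_iff_exp_le (Z_pos hS v)]
    exact Finset.single_le_sum (f := fun q => Real.exp (inner ℝ q v))
      (fun q _ => (Real.exp_pos _).le) hp
  have hc : Convex ℝ {x : E n | inner ℝ x v ≤ Real.log (Z S v)} := by
    intro x hx y hy a b ha hb hab
    rw [mem_ofPred_eq] at hx hy ⊢
    rw [inner_add_left, inner_smul_left, inner_smul_left, conj_trivial, conj_trivial]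
    calc a * inner ℝ x v + b * inner ℝ y v
        ≤ a * Real.log (Z S v) + b * Real.log (Z S v) := by gcongr
      _ = Real.log (Z S v) := by rw [← add_mul, hab, one_mul]
  exact convexHull_min h hc ha

theorem interior_subset_range {S S' : Finset (E n)} (hS : S.Nonempty) (hS' : S'.Nonempty)
    {t : ℝ} (ht : 0 ≤ t) :
    interior (convexHull ℝ (S : Set (E n)) + t • convexHull ℝ (S' : Set (E n))) ⊆
      range (g S S' t) := by
  intro x hx
  obtain ⟨e, he, hb⟩ := Metric.isOpen_iff.1 isOpen_interior x hx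
  have hΦ : ∀ v, HasFDerivAt
      (fun v => Real.log (Z S v) + t * Real.log (Z S' v) - inner ℝ x v)
      (innerSL ℝ (m S v) + t • innerSL ℝ (m S' v) - innerSL ℝ x) v := fun v =>
    ((hlog hS v).add ((hlog hS' v).const_mul t)).sub (innerSL ℝ x).hasFDerivAt
  have hcont : Continuous
      (fun v => Real.log (Z S v) + t * Real.log (Z S' v) - inner ℝ x v) :=
    continuous_iff_continuousAt.2 fun v => (hΦ v).continuousAt
  have hlow : ∀ v, e / 2 * ‖v‖ ≤
      Real.log (Z S v) + t * Real.log (Z S' v) - inner ℝ x v := by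
    intro v
    have h1 : x + (e / 2 / ‖v‖) • v ∈ ball x e := by
      rw [mem_ball, dist_self_add_left, norm_smul, Real.norm_eq_abs,
        abs_of_nonneg (div_nonneg (half_pos he).le (norm_nonneg _))]
      by_cases hv : ‖v‖ = 0
      · rw [hv, mul_zero]; exact he
      · rw [div_mul_cancel₀ _ hv]; exact half_lt_self he
    obtain ⟨a, ha, y, hy, hay⟩ := Set.mem_add.1 (interior_subset (hb h1))
    obtain ⟨b, hb', rfl⟩ := hy
    have h2 := log_ge hS v ha
    have h3 := mul_le_mul_of_nonneg_left (log_ge hS' v hb') ht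
    have h4 : inner ℝ (a + t • b) v = inner ℝ (x + (e / 2 / ‖v‖) • v) v := by
      rw [← hay]
    rw [inner_add_left, inner_add_left, inner_smul_left, inner_smul_left, conj_trivial,
      conj_trivial, real_inner_self_eq_norm_sq] at h4
    have h5 : e / 2 / ‖v‖ * ‖v‖ ^ 2 = e / 2 * ‖v‖ := by
      by_cases hv : ‖v‖ = 0
      · rw [hv]; ring
      · field_simp
    rw [h5] at h4
    linarith
  have hT := tendsto_atTop_mono hlow
    ((tendsto_norm_cocompact_atTop (E := E n)).const_mul_atTop (half_pos he))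
  obtain ⟨v, hv⟩ := hcont.exists_forall_le hT
  refine ⟨v, ?_⟩
  have hmin : IsLocalMin
      (fun v => Real.log (Z S v) + t * Real.log (Z S' v) - inner ℝ x v) v :=
    Filter.Eventually.of_forall hv
  have h0 := hmin.hasFDerivAt_eq_zero (hΦ v)
  apply ext_inner_right ℝ
  intro u
  have h1 := DFunLike.congr_fun h0 u
  simp only [sub_apply, add_apply, FunLike.coe_smul, Pi.smul_apply, innerSL_apply_apply,
    smul_eq_mul, zero_apply] at h1
  rw [g, inner_add_left, inner_smul_left, conj_trivial]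
  linarith

theorem det_pos (A : E n →L[ℝ] E n) (hA : ∀ u, u ≠ 0 → 0 < inner ℝ (A u) u) : 0 < A.det := by
  by_contra hcon
  have hcont : Continuous fun s : ℝ =>
      ((1 - s) • ContinuousLinearMap.id ℝ (E n) + s • A).det :=
    ContinuousLinearMap.continuous_det.comp (by fun_prop)
  have h0 : ((1 - (0 : ℝ)) • ContinuousLinearMap.id ℝ (E n) + (0 : ℝ) • A).det = 1 := by
    rw [sub_zero, one_smul, zero_smul ℝ A, add_zero]
    exact LinearMap.det_id
  have h1 : ((1 - (1 : ℝ)) • ContinuousLinearMap.id ℝ (E n) + (1 : ℝ) • A).det = A.det := by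
    rw [sub_self, one_smul, zero_smul ℝ (ContinuousLinearMap.id ℝ (E n)), zero_add]
  have hiv := intermediate_value_Icc' (zero_le_one (α := ℝ)) hcont.continuousOn
  have hmem : (0 : ℝ) ∈ Icc
      (((1 - (1 : ℝ)) • ContinuousLinearMap.id ℝ (E n) + (1 : ℝ) • A).det)
      (((1 - (0 : ℝ)) • ContinuousLinearMap.id ℝ (E n) + (0 : ℝ) • A).det) := by
    rw [h0, h1]
    exact ⟨not_lt.1 hcon, zero_le_one⟩
  obtain ⟨s, hs, h⟩ := hiv hmem
  have hker := LinearMap.bot_lt_ker_of_det_eq_zero h
  obtain ⟨u, hu, hu0⟩ := Submodule.exists_mem_ne_zero_of_ne_bot hker.ne'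
  rw [LinearMap.mem_ker] at hu
  have hu' : (1 - s) • u + s • A u = 0 := hu
  have h2 : inner ℝ ((1 - s) • u + s • A u) u = 0 := by rw [hu', inner_zero_left]
  rw [inner_add_left, inner_smul_left, inner_smul_left, conj_trivial, conj_trivial,
    real_inner_self_eq_norm_sq] at h2
  have h3 := hA u hu0
  have h4 : 0 < ‖u‖ ^ 2 := pow_pos (norm_pos_iff.2 hu0) 2
  rcases eq_or_lt_of_le hs.1 with h5 | h5
  · rw [← h5] at h2; linarith
  · have h6 := mul_nonneg (sub_nonneg.2 hs.2) h4.le
    have h7 := mul_pos h5 h3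
    linarith

theorem nonempty_of_full {S : Finset (E n)} (hF : Full (convexHull ℝ (S : Set (E n)))) :
    S.Nonempty := by
  obtain ⟨x, hx⟩ := hF
  have : (convexHull ℝ (S : Set (E n))).Nonempty := ⟨x, interior_subset hx⟩
  exact_mod_cast convexHull_nonempty_iff.1 this

theorem vol_eq {S S' : Finset (E n)} (hF : Full (convexHull ℝ (S : Set (E n))))
    (hF' : Full (convexHull ℝ (S' : Set (E n)))) {t : ℝ} (ht : 0 ≤ t) :
    Integrable (fun v : E n => (H S v + t • H S' v).det) ∧
    ∫ v : E n, (H S v + t • H S' v).det =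
      vl (convexHull ℝ (S : Set (E n)) + t • convexHull ℝ (S' : Set (E n))) := by
  have hS := nonempty_of_full hF
  have hS' := nonempty_of_full hF'
  have hpos : ∀ v : E n, 0 < (H S v + t • H S' v).det := fun v =>
    det_pos _ fun u hu => D_pos hS hS' hF ht v u hu
  have hmeas : Measurable fun v : E n => (H S v + t • H S' v).det := by
    have h1 := measurable_fderiv ℝ (g S S' t)
    have h2 := ContinuousLinearMap.continuous_det.measurable.comp h1
    have h3 : (fun v : E n => (H S v + t • H S' v).det) =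
        (fun A : E n →L[ℝ] E n => A.det) ∘ fderiv ℝ (g S S' t) := by
      funext v
      simp only [Function.comp_apply, (hg hS hS' t v).fderiv]
    rw [h3]
    exact h2
  have key := lintegral_abs_det_fderiv_eq_addHaar_image volume MeasurableSet.univ
    (fun v _ => (hg hS hS' t v).hasFDerivWithinAt) (g_inj hS hS' hF ht).injOn
  rw [image_univ, Measure.restrict_univ] at key
  have hcpt : IsCompact (convexHull ℝ (S : Set (E n)) + t • convexHull ℝ (S' : Set (E n))) :=
    (S.finite_toSet.isCompact_convexHull (𝕜 := ℝ)).add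
      ((S'.finite_toSet.isCompact_convexHull (𝕜 := ℝ)).smul t)
  have hcvx : Convex ℝ (convexHull ℝ (S : Set (E n)) + t • convexHull ℝ (S' : Set (E n))) :=
    (convex_convexHull ℝ _).add ((convex_convexHull ℝ _).smul t)
  have hrange : volume (range (g S S' t)) =
      volume (convexHull ℝ (S : Set (E n)) + t • convexHull ℝ (S' : Set (E n))) := by
    apply le_antisymm
    · exact measure_mono (range_subset_iff.2 fun v => g_mem hS hS' t v)
    · calc volume (convexHull ℝ (S : Set (E n)) + t • convexHull ℝ (S' : Set (E n)))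
          ≤ volume (interior (convexHull ℝ (S : Set (E n)) + t • convexHull ℝ (S' : Set (E n))) ∪
              frontier
                (convexHull ℝ (S : Set (E n)) + t • convexHull ℝ (S' : Set (E n)))) := by
            rw [← closure_eq_interior_union_frontier]
            exact measure_mono subset_closure
        _ ≤ volume (interior (convexHull ℝ (S : Set (E n)) + t • convexHull ℝ (S' : Set (E n)))) +
              volume (frontier
                (convexHull ℝ (S : Set (E n)) + t • convexHull ℝ (S' : Set (E n)))) :=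
            measure_union_le _ _
        _ = volume (interior
              (convexHull ℝ (S : Set (E n)) + t • convexHull ℝ (S' : Set (E n)))) := by
            rw [hcvx.addHaar_frontier volume, add_zero]
        _ ≤ volume (range (g S S' t)) := measure_mono (interior_subset_range hS hS' ht)
  rw [hrange] at key
  have key2 : ∫⁻ v : E n, ENNReal.ofReal ((H S v + t • H S' v).det) =
      volume (convexHull ℝ (S : Set (E n)) + t • convexHull ℝ (S' : Set (E n))) := by
    rw [← key]
    exact lintegral_congr fun v => by rw [abs_of_pos (hpos v)]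
  have hnn : 0 ≤ᵐ[volume] fun v : E n => (H S v + t • H S' v).det :=
    Filter.Eventually.of_forall fun v => (hpos v).le
  refine ⟨⟨hmeas.aestronglyMeasurable, ?_⟩, ?_⟩
  · rw [hasFiniteIntegral_iff_ofReal hnn, key2]
    exact hcpt.measure_lt_top
  · rw [integral_eq_lintegral_of_nonneg_ae hnn hmeas.aestronglyMeasurable, key2, vl]

theorem det_interp (A B : E 3 →L[ℝ] E 3) (t : ℝ) : (A + t • B).det =
    (1 - 3 * t / 2 + t ^ 2 / 2) * A.det + (2 * t - t ^ 2) * (A + (1 : ℝ) • B).det +
    (t ^ 2 / 2 - t / 2) * (A + (2 : ℝ) • B).det + (t ^ 3 - 3 * t ^ 2 + 2 * t) * B.det := by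
  let b := (EuclideanSpace.basisFun (Fin 3) ℝ).toBasis
  have key : ∀ C : E 3 →L[ℝ] E 3, C.det =
      (LinearMap.toMatrix b b (C : E 3 →ₗ[ℝ] E 3)).det :=
    fun C => (LinearMap.det_toMatrix b _).symm
  have hadd : ∀ s : ℝ, LinearMap.toMatrix b b ((A + s • B : E 3 →L[ℝ] E 3) : E 3 →ₗ[ℝ] E 3) =
      LinearMap.toMatrix b b (A : E 3 →ₗ[ℝ] E 3) +
        s • LinearMap.toMatrix b b (B : E 3 →ₗ[ℝ] E 3) := by
    intro s
    rw [ContinuousLinearMap.toLinearMap_add, ContinuousLinearMap.toLinearMap_smul, map_add,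
      map_smul]
  rw [key, key A, key (A + (1 : ℝ) • B), key (A + (2 : ℝ) • B), key B, hadd, hadd, hadd]
  generalize LinearMap.toMatrix b b (A : E 3 →ₗ[ℝ] E 3) = A'
  generalize LinearMap.toMatrix b b (B : E 3 →ₗ[ℝ] E 3) = B'
  simp only [Matrix.det_fin_three, Matrix.add_apply, Matrix.smul_apply, smul_eq_mul]
  ring

theorem pol : POLStmt := by
  intro S S' hF hF'
  have h0 := vol_eq hF hF' (le_refl (0 : ℝ))
  have h1 := vol_eq hF hF' (zero_le_one (α := ℝ))
  have h2 := vol_eq hF hF' (zero_le_two (α := ℝ))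
  have h3 := vol_eq hF' hF' (le_refl (0 : ℝ))
  have hne' : (convexHull ℝ (S' : Set (E 3))).Nonempty :=
    ⟨_, interior_subset hF'.some_mem⟩
  rw [zero_smul_set hne', add_zero] at h0 h3
  have e0 : ∀ v : E 3, H S v + (0 : ℝ) • H S' v = H S v := fun v => by
    rw [zero_smul ℝ (H S' v), add_zero]
  have e3 : ∀ v : E 3, H S' v + (0 : ℝ) • H S' v = H S' v := fun v => by
    rw [zero_smul ℝ (H S' v), add_zero]
  simp only [e0] at h0
  simp only [e3] at h3
  refine ⟨-3 / 2 * vl (convexHull ℝ (S : Set (E 3))) +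
    2 * vl (convexHull ℝ (S : Set (E 3)) + (1 : ℝ) • convexHull ℝ (S' : Set (E 3))) -
    vl (convexHull ℝ (S : Set (E 3)) + (2 : ℝ) • convexHull ℝ (S' : Set (E 3))) / 2 +
    2 * vl (convexHull ℝ (S' : Set (E 3))),
    vl (convexHull ℝ (S : Set (E 3))) / 2 -
    vl (convexHull ℝ (S : Set (E 3)) + (1 : ℝ) • convexHull ℝ (S' : Set (E 3))) +
    vl (convexHull ℝ (S : Set (E 3)) + (2 : ℝ) • convexHull ℝ (S' : Set (E 3))) / 2 -
    3 * vl (convexHull ℝ (S' : Set (E 3))), ?_⟩
  intro t ht
  have ht' := vol_eq hF hF' ht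
  rw [← ht'.2]
  have e : ∀ v : E 3, (H S v + t • H S' v).det =
      (1 - 3 * t / 2 + t ^ 2 / 2) * (H S v).det +
      (2 * t - t ^ 2) * (H S v + (1 : ℝ) • H S' v).det +
      (t ^ 2 / 2 - t / 2) * (H S v + (2 : ℝ) • H S' v).det +
      (t ^ 3 - 3 * t ^ 2 + 2 * t) * (H S' v).det := fun v => det_interp _ _ t
  simp only [e]
  rw [integral_add, integral_add, integral_add, integral_const_mul, integral_const_mul,
    integral_const_mul, integral_const_mul, h0.2, h1.2, h2.2, h3.2]
  · ring
  · exact h0.1.const_mul _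
  · exact h1.1.const_mul _
  · exact (h0.1.const_mul _).add (h1.1.const_mul _)
  · exact h2.1.const_mul _
  · exact ((h0.1.const_mul _).add (h1.1.const_mul _)).add (h2.1.const_mul _)
  · exact h3.1.const_mul _

end PV3.H33
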